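import Mathlib

/-!
# MP_a0a898 — the snooker domination game on the 2 × 7 grid is a first player win
-/

namespace Pool.Agent.Results.MP_a0a898_co.GridCE

open SimpleGraph

variable {V : Type} [Fintype V] [DecidableEq V]

/-- `D` is a dominating set of `G`. -/
def Dominating (G : SimpleGraph V) (D : Finset V) : Prop :=
  ∀ v, v ∈ D ∨ ∃ u ∈ D, G.Adj v u

/-- The set of picked vertices is `D` and play has not stopped: the player to move has a winning
strategy.  Either some unpicked vertex makes the picked set dominating (the mover wins at once),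
or there is an unpicked vertex `v` such that play does not stop after `v` and, whichever
unpicked vertex `w` the opponent answers with, play does not stop after `w` and the mover
has a winning strategy again. -/
inductive MoverWins (G : SimpleGraph V) : Finset V → Prop
  | now (D : Finset V) (v : V) (hv : v ∉ D) (h : Dominating G (insert v D)) : MoverWins G D
  | later (D : Finset V) (v : V) (hv : v ∉ D) (h : ¬ Dominating G (insert v D))
      (hstop : ∀ w, w ∉ insert v D → ¬ Dominating G (insert w (insert v D)))
      (hwin : ∀ w, w ∉ insert v D → MoverWins G (insert w (insert v D))) : MoverWins G D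

/-- The first player has a winning strategy in the snooker domination game. -/
def FirstWins (G : SimpleGraph V) : Prop := MoverWins G ∅

/-- The second player has a winning strategy: whichever vertex the first player picks, play does
not stop and the second player, now to move, has a winning strategy. -/
def SecondWins (G : SimpleGraph V) : Prop :=
  ∀ v, ¬ Dominating G {v} ∧ MoverWins G {v}

theorem exclusive (G : SimpleGraph V) {D : Finset V} (h : MoverWins G D) :
    ¬ ∀ v, v ∉ D → ¬ Dominating G (insert v D) ∧ MoverWins G (insert v D) := by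
  induction h with
  | now D v hv h => exact fun H => (H v hv).1 h
  | later D v hv h hstop hwin ih =>
    intro H
    cases (H v hv).2 with
    | now _ w hw hd => exact hstop w hw hd
    | later _ w hw hd hs hw' => exact ih w hw (fun x hx => ⟨hs x hx, hw' x hx⟩)

/-- The two players cannot both have a winning strategy. -/
theorem not_second_of_first (G : SimpleGraph V) (h : FirstWins G) : ¬ SecondWins G := by
  intro H
  exact exclusive G h (fun v _ => by simpa using H v)

/-- The grid `P_k □ P_m`. -/
abbrev grid (k m : ℕ) : SimpleGraph (Fin k × Fin m) := (pathGraph k).boxProd (pathGraph m)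

/-! ### The 2 × 7 grid, with positions coded by bit masks -/

abbrev W := Fin 2 × Fin 7

def idx (v : W) : ℕ := 7 * v.1.val + v.2.val

def nbs : List ℕ := [131, 263, 526, 1052, 2104, 4208, 8288, 385, 898, 1796, 3592, 7184, 14368, 12352]

def nb (i : ℕ) : ℕ := nbs.getD i 0

def toSet (m : ℕ) : Finset W := Finset.univ.filter fun v => m.testBit (idx v) = true

def domB (m : ℕ) : Bool := nbs.all fun a => (a &&& m) != 0

def immB (m : ℕ) : Bool :=
  (List.range 14).any fun x => !m.testBit x && domB (m ||| 2 ^ x)

def tbl : List (ℕ × ℕ) :=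
  [(0, 12), (4097, 9), (4098, 8), (4100, 10), (4104, 0), (4107, 7), (4109, 10), (4112, 0), (4115,
   8), (4117, 11), (4121, 2), (4128, 8), (4160, 8), (4224, 11), (4233, 1), (4241, 10), (4251, 11),
   (4352, 13), (4355, 4), (4358, 4), (4369, 11), (4370, 0), (4375, 7), (4388, 4), (4400, 2),
   (4420, 4), (4432, 2), (4448, 11), (4468, 13), (4482, 4), (4499, 2), (4502, 0), (4608, 0),
   (4611, 11), (4737, 11), (4865, 11), (4866, 11), (4896, 11), (4928, 11), (5120, 2), (5125, 3),
   (5126, 13), (5129, 2), (5132, 0), (5137, 2), (5140, 0), (5149, 11), (5188, 8), (5380, 13),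
   (5440, 2), (5521, 11), (5636, 13), (5956, 13), (6144, 7), (6153, 2), (6161, 2), (6173, 10),
   (6273, 10), (6274, 3), (6280, 1), (6283, 4), (6288, 8), (6298, 0), (6402, 9), (6432, 6), (6464,
   13), (6528, 9), (6545, 10), (6657, 7), (6784, 0), (6787, 8), (6915, 7), (7008, 13), (7041, 1),
   (7042, 0), (7172, 0), (7181, 4), (7189, 3), (7296, 0), (7313, 8), (7441, 7), (7553, 4), (7568,
   0), (12288, 8), (12548, 4), (12560, 2), (12576, 11), (12596, 6), (12608, 11), (12628, 5),
   (13056, 11), (13316, 8), (13382, 9), (13568, 2), (13636, 9), (13830, 6), (13892, 1), (14084,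
   6), (14592, 6), (14688, 9), (15136, 6), (15168, 5)]

def keys : List ℕ := tbl.map Prod.fst

def condB (m v : ℕ) : Bool :=
  decide (v < 14) && !m.testBit v && !domB (m ||| 2 ^ v) &&
    (List.range 14).all fun w => (m ||| 2 ^ v).testBit w ||
      (!domB (m ||| 2 ^ v ||| 2 ^ w) &&
        (immB (m ||| 2 ^ v ||| 2 ^ w) || keys.contains (m ||| 2 ^ v ||| 2 ^ w)))

theorem tbl_ok : (tbl.all fun p => condB p.1 p.2) = true := by decide +kernel

theorem idx_lt (v : W) : idx v < 14 := by
  revert v; decide

theorem idx_inj : ∀ u v : W, idx u = idx v → u = v := by decide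

theorem idx_surj : ∀ i < 14, ∃ v : W, idx v = i := by decide

theorem adj_iff : ∀ v u : W, (u = v ∨ (grid 2 7).Adj v u) ↔ (nb (idx v)).testBit (idx u) = true := by
  simp only [grid, boxProd_adj, pathGraph_adj]
  decide +kernel

theorem toSet_insert (m : ℕ) (v : W) : toSet (m ||| 2 ^ idx v) = insert v (toSet m) := by
  ext u
  simp only [toSet, Finset.mem_filter, Finset.mem_univ, true_and, Finset.mem_insert,
    Nat.testBit_or, Nat.testBit_two_pow, Bool.or_eq_true, decide_eq_true_eq]
  constructor
  · rintro (h | h)
    · exact Or.inr h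
    · exact Or.inl (idx_inj _ _ h.symm)
  · rintro (h | h)
    · exact Or.inr (by rw [h])
    · exact Or.inl h

theorem mem_toSet (m : ℕ) (v : W) : v ∈ toSet m ↔ m.testBit (idx v) = true := by
  simp [toSet]

theorem and_ne_zero_iff (a m : ℕ) : (a &&& m) ≠ 0 ↔ ∃ j, a.testBit j = true ∧ m.testBit j = true := by
  constructor
  · intro h
    by_contra hcon
    push Not at hcon
    apply h
    apply Nat.eq_of_testBit_eq
    intro j
    rw [Nat.testBit_and, Nat.zero_testBit]
    by_cases ha : a.testBit j = true
    · simp [hcon j ha]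
    · simp [ha]
  · rintro ⟨j, h1, h2⟩ h
    have h3 : (a &&& m).testBit j = true := by rw [Nat.testBit_and, h1, h2]; rfl
    rw [h, Nat.zero_testBit] at h3
    exact absurd h3 (by decide)

theorem nb_lt : ∀ i < 14, nb i < 2 ^ 14 := by decide

theorem nbs_eq : nbs = (List.range 14).map nb := by decide

theorem dom_iff (m : ℕ) : domB m = true ↔ Dominating (grid 2 7) (toSet m) := by
  have h1 : domB m = true ↔ ∀ i < 14, (nb i &&& m) ≠ 0 := by
    unfold domB
    rw [nbs_eq]
    simp [List.all_map]
  rw [h1]
  constructor
  · intro h v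
    obtain ⟨j, hj1, hj2⟩ := (and_ne_zero_iff _ _).1 (h (idx v) (idx_lt v))
    have hj : j < 14 := by
      by_contra hj
      have h2 := Nat.testBit_lt_two_pow (lt_of_lt_of_le (nb_lt _ (idx_lt v))
        (Nat.pow_le_pow_right (by norm_num) (not_lt.1 hj)))
      rw [h2] at hj1
      exact absurd hj1 (by decide)
    obtain ⟨u, rfl⟩ := idx_surj j hj
    rcases (adj_iff v u).2 hj1 with h3 | h3
    · left
      rw [mem_toSet, ← h3]
      exact hj2
    · exact Or.inr ⟨u, (mem_toSet m u).2 hj2, h3⟩
  · intro h i hi
    obtain ⟨v, rfl⟩ := idx_surj i hi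
    rw [and_ne_zero_iff]
    rcases h v with h2 | ⟨u, hu, h2⟩
    · exact ⟨idx v, (adj_iff v v).1 (Or.inl rfl), (mem_toSet m v).1 h2⟩
    · exact ⟨idx u, (adj_iff v u).1 (Or.inr h2), (mem_toSet m u).1 hu⟩

theorem imm_wins (m : ℕ) (h : immB m = true) : MoverWins (grid 2 7) (toSet m) := by
  unfold immB at h
  rw [List.any_eq_true] at h
  obtain ⟨x, hx, hx2⟩ := h
  rw [List.mem_range] at hx
  obtain ⟨v, rfl⟩ := idx_surj x hx
  rw [Bool.and_eq_true] at hx2
  refine MoverWins.now _ v ?_ ?_
  · rw [mem_toSet]
    simpa using hx2.1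
  · rw [← toSet_insert, ← dom_iff]
    exact hx2.2

theorem tbl_wins : ∀ k m v : ℕ, 2 ^ 14 - m ≤ k → (m, v) ∈ tbl →
    MoverWins (grid 2 7) (toSet m) := by
  intro k
  induction k with
  | zero =>
    intro m v hk hm
    have h1 : ∀ p ∈ tbl, p.1 < 2 ^ 14 := by decide
    have := h1 _ hm
    simp only at this
    omega
  | succ k ih =>
    intro m v hk hm
    have hc := List.all_eq_true.1 tbl_ok _ hm
    simp only [condB, Bool.and_eq_true, List.all_eq_true, List.mem_range, decide_eq_true_eq,
      Bool.or_eq_true, Bool.not_eq_true'] at hc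
    obtain ⟨⟨⟨hv, hmv⟩, hnd⟩, hall⟩ := hc
    obtain ⟨x, rfl⟩ := idx_surj v hv
    have hins := toSet_insert m x
    refine MoverWins.later _ x ?_ ?_ ?_ ?_
    · rw [mem_toSet, hmv]; decide
    · rw [← hins, ← dom_iff, hnd]; decide
    · intro w hw
      rw [← hins, mem_toSet] at hw
      rcases hall (idx w) (idx_lt w) with h | ⟨h, _⟩
      · exact absurd h hw
      · rw [← hins, ← toSet_insert, ← dom_iff, h]; decide
    · intro w hw
      rw [← hins, mem_toSet] at hw
      rcases hall (idx w) (idx_lt w) with h | ⟨_, h | h⟩
      · exact absurd h hw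
      · rw [← hins, ← toSet_insert]
        exact imm_wins _ h
      · rw [← hins, ← toSet_insert]
        have h2 : (m ||| 2 ^ idx x ||| 2 ^ idx w) ∈ keys := List.contains_iff_mem.1 h
        obtain ⟨⟨m', v'⟩, hmem, heq⟩ := List.mem_map.1 h2
        simp only at heq
        rw [← heq]
        refine ih m' v' ?_ hmem
        have h3 : m < m' := by
          rw [heq]
          have h4 : m < m ||| 2 ^ idx x := by
            apply Nat.lt_of_testBit (idx x) hmv
            · simp [Nat.testBit_or]
            · intro j hj
              rw [Nat.testBit_or, Nat.testBit_two_pow_of_ne (Nat.ne_of_lt hj)]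
              simp
          exact lt_of_lt_of_le h4 Nat.left_le_or
        omega

theorem first_wins : FirstWins (grid 2 7) := by
  have h : toSet 0 = ∅ := by
    ext v
    simp [toSet]
  unfold FirstWins
  rw [← h]
  exact tbl_wins _ 0 12 le_rfl (by decide)

/-- **Main theorem.** On the `2 × 7` grid (14 vertices) the first player wins the snooker
domination game; hence it is false that the second player wins on all grids `P_k □ P_m` with
`k, m ≥ 2` and `k m` even. -/
theorem result :
    FirstWins ((pathGraph 2).boxProd (pathGraph 7)) ∧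
    ¬ SecondWins ((pathGraph 2).boxProd (pathGraph 7)) ∧
    ¬ ∀ k m : ℕ, 2 ≤ k → 2 ≤ m → Even (k * m) →
        SecondWins ((pathGraph k).boxProd (pathGraph m)) :=
  ⟨first_wins, not_second_of_first _ first_wins, fun H =>
    not_second_of_first _ first_wins (H 2 7 (by norm_num) (by norm_num) (by decide))⟩

end Pool.Agent.Results.MP_a0a898_co.GridCE
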